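import Pool.Agent.Lib.MP_c98209_co.Tough

set_option autoImplicit false

namespace Pool.Agent.Results.MP_c98209_co.Classification

open Pool.Agent.Lib.MP_c98209_co

/-- A finite co-chordal graph with co-diameter 2 is non-trivially minimally tough if and only if
it is isomorphic to the graph T_l for some l at least 1. -/
theorem result (V : Type) [Finite V] (G : SimpleGraph V) (hc : Chordal Gᶜ) (hd : Gᶜ.ediam = 2) :
    (G ≠ ⊤ ∧ G ≠ ⊥ ∧ MinimallyTough G) ↔ ∃ l : ℕ, 1 ≤ l ∧ Nonempty (G ≃g triStar l) := by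
  constructor
  · rintro ⟨-, h1, h2⟩
    exact iso_of_minTough G hc hd h1 h2
  · rintro ⟨l, hl, ⟨φ⟩⟩
    exact minTough_of_iso G l hl φ

end Pool.Agent.Results.MP_c98209_co.Classification
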